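import Pool.Agent.H45.StarClique

set_option autoImplicit false

open Pool.Agent.H45.Chain
open scoped ENNReal

namespace Pool.Agent.Results.MP_a2c283_pr.Superlinear

/-- For all `α, c > 0` and every bound `H₀` there are a finite connected graph with
`H(G) ≥ H₀`, a number `k ≤ exp (α H(G))` of walks and starting vertices with
`C > c k C_{u_1,...,u_k}`. -/
theorem result (α c H₀ : ℝ) (hα : 0 < α) (hc : 0 < c) :
    ∃ (V : Type) (_ : Fintype V) (_ : MeasurableSpace V) (_ : MeasurableSingletonClass V)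
      (G : SimpleGraph V) (k : ℕ) (us : Fin k → V),
      G.Connected ∧ Nontrivial V ∧ 1 ≤ k ∧ maxCover (srw G) ≠ ⊤ ∧ maxHit (srw G) ≠ ⊤ ∧
      H₀ ≤ (maxCover (srw G) / maxHit (srw G)).toReal ∧
      (k : ℝ) ≤ Real.exp (α * (maxCover (srw G) / maxHit (srw G)).toReal) ∧
      ENNReal.ofReal c * (k : ℝ≥0∞) * jointCover (srw G) us < maxCover (srw G) := by
  obtain ⟨m, n, k, h⟩ := superlinear α c H₀ hα hc
  exact ⟨SV m n, inferInstance, inferInstance, inferInstance, SG m n, k + 2, fun _ => .inl none,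
    SG_connected, ⟨⟨.inl none, .inr none, by simp⟩⟩, by omega, h⟩

end Pool.Agent.Results.MP_a2c283_pr.Superlinear
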